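import Pool.Agent.Lib.MP_b0301d_al.Grassmann

/-!
The algebra `A`: the augmentation ideal of the Grassmann algebra `P` over `ZMod 3`, with product
`x ∘ y = x y` if one of the homogeneous elements `x`, `y` is even and
`x ∘ y = x D(y) + y D(x)` if both are odd.
-/

set_option autoImplicit false

namespace Pool.Agent.Lib.MP_b0301d_al

noncomputable section

/-- the new product on `P` -/
def op (x y : P) : P := p0 x * y + p0 y * p1 x + (p1 x * D (p1 y) + p1 y * D (p1 x))

theorem p0_of {a s : P} (ha : Ev a) (hs : Od s) : p0 (a + s) = a := by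
  rw [map_add, ha.p0, hs.p0, add_zero]
theorem p1_of {a s : P} (ha : Ev a) (hs : Od s) : p1 (a + s) = s := by
  rw [map_add, ha.p1, hs.p1, zero_add]

theorem op_eq {a s b t : P} (ha : Ev a) (hs : Od s) (hb : Ev b) (ht : Od t) :
    op (a + s) (b + t) = (a * b + (s * D t + t * D s)) + (a * t + b * s) := by
  unfold op
  rw [p0_of ha hs, p1_of ha hs, p0_of hb ht, p1_of hb ht]
  noncomm_ring

theorem op_ev_left {a y : P} (ha : Ev a) : op a y = a * y := by
  unfold op
  rw [ha.p0, ha.p1]
  simp

theorem op_comm (x y : P) : op x y = op y x := by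
  rw [← p0_add_p1 x, ← p0_add_p1 y, op_eq (p0_ev x) (p1_od x) (p0_ev y) (p1_od y),
    op_eq (p0_ev y) (p1_od y) (p0_ev x) (p1_od x), (p0_ev x).comm (p0 y)]
  abel

theorem op_add_left (x y z : P) : op (x + y) z = op x z + op y z := by
  unfold op
  simp only [map_add, mul_add, add_mul]
  abel

theorem op_add_right (x y z : P) : op x (y + z) = op x y + op x z := by
  rw [op_comm, op_add_left, op_comm y, op_comm z]

theorem op_smul_left (r : K) (x y : P) : op (r • x) y = r • op x y := by
  unfold op
  simp only [map_smul, smul_mul_assoc, mul_smul_comm, smul_add]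

theorem op_smul_right (r : K) (x y : P) : op x (r • y) = r • op x y := by
  rw [op_comm, op_smul_left, op_comm]

theorem op_zero_left (y : P) : op 0 y = 0 := by
  have := op_smul_left 0 0 y
  simpa using this

theorem op_zero_right (y : P) : op y 0 = 0 := by
  rw [op_comm, op_zero_left]

theorem op_sub_left (x y z : P) : op (x - y) z = op x z - op y z := by
  have h := op_add_left (x - y) y z
  rw [sub_add_cancel] at h
  rw [h, add_sub_cancel_right]

theorem op_alt (x y : P) : op (op x x) y = op x (op x y) := by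
  obtain ⟨a, s, ha, hs, rfl⟩ : ∃ a s, Ev a ∧ Od s ∧ x = a + s :=
    ⟨_, _, p0_ev x, p1_od x, (p0_add_p1 x).symm⟩
  obtain ⟨b, t, hb, ht, rfl⟩ : ∃ b t, Ev b ∧ Od t ∧ y = b + t :=
    ⟨_, _, p0_ev y, p1_od y, (p0_add_p1 y).symm⟩
  have hxx : op (a + s) (a + s) = (a * a + (s * D s + s * D s)) + (a * s + a * s) :=
    op_eq ha hs ha hs
  have hxy := op_eq ha hs hb ht
  rw [hxx, hxy]
  rw [op_eq ((ha.mul ha).add ((hs.mul hs.d).add (hs.mul hs.d)))
    ((ha.mul_od hs).add (ha.mul_od hs)) hb ht]
  rw [op_eq ha hs ((ha.mul hb).add ((hs.mul ht.d).add (ht.mul hs.d)))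
    ((ha.mul_od ht).add (hb.mul_od hs))]
  simp only [D_mul, map_add]
  have ha' := ha.d
  have hb' := hb.d
  have hs' := hs.d
  have ht' := ht.d
  generalize D a = a' at *
  generalize D b = b' at *
  generalize D s = s' at *
  generalize D t = t' at *
  have c1 : ∀ z, z * a = a * z := fun z => (ha.comm z).symm
  have c2 : ∀ z, z * b = b * z := fun z => (hb.comm z).symm
  have c3 : ∀ z, z * a' = a' * z := fun z => (ha'.comm z).symm
  have c4 : ∀ z, z * b' = b' * z := fun z => (hb'.comm z).symm
  have o1 : t * s = - (s * t) := ht.swap hs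
  have o2 : s' * s = - (s * s') := hs'.swap hs
  have o3 : t' * s = - (s * t') := ht'.swap hs
  have o4 : s' * t = - (t * s') := hs'.swap ht
  have q1 : s * s = 0 := hs.sq
  have q2 : t * t = 0 := ht.sq
  have E1 : (a * a + (s * s' + s * s')) * b + ((a * s + a * s) * t' +
      t * (a * s' + a' * s + (a * s' + a' * s)))
      = a * (a * b + (s * t' + t * s')) + (s * (a * t' + a' * t + (b * s' + b' * s)) +
      (a * t + b * s) * s') := by
    have m1 : (s * s') * b = b * (s * s') := c2 _
    have m2 : t * (a * s') = a * (t * s') := by rw [← mul_assoc, c1, mul_assoc]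
    have m3 : t * (a' * s) = - (a' * (s * t)) := by
      rw [← mul_assoc, c3, mul_assoc, o1, mul_neg]
    have m4 : s * (a * t') = a * (s * t') := by rw [← mul_assoc, c1, mul_assoc]
    have m5 : s * (a' * t) = a' * (s * t) := by rw [← mul_assoc, c3, mul_assoc]
    have m6 : s * (b * s') = b * (s * s') := by rw [← mul_assoc, c2, mul_assoc]
    have m7 : s * (b' * s) = 0 := by rw [← mul_assoc, c4, mul_assoc, q1, mul_zero]
    have h3 := three_zero (a' * (s * t))
    simp only [add_mul, mul_add, m1, m2, m3, m4, m5, m6, m7, mul_assoc]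
    have key : ∀ (u v w z r c : P), c + c + c = 0 →
      u + (v + v) + (w + w + (z + -c + (z + -c))) = u + (w + z) + (w + c + (v + 0) + (z + v)) := by
      intro u v w z r c hc
      have : u + (v + v) + (w + w + (z + -c + (z + -c)))
          = u + (w + z) + (w + c + (v + 0) + (z + v)) - (c + c + c) := by abel
      rw [this, hc, sub_zero]
    exact key _ _ _ _ 0 _ h3
  have E2 : (a * a + (s * s' + s * s')) * t + b * (a * s + a * s)
      = a * (a * t + b * s) + (a * b + (s * t' + t * s')) * s := by
    have m1 : (s * s') * t = - (s * (t * s')) := by rw [mul_assoc, o4, mul_neg]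
    have m2 : b * (a * s) = a * (b * s) := by rw [← mul_assoc, c1, mul_assoc]
    have m3 : (s * t') * s = 0 := by rw [mul_assoc, o3, mul_neg, ← mul_assoc, q1, zero_mul, neg_zero]
    have m4 : (t * s') * s = s * (t * s') := by
      rw [mul_assoc, o2, mul_neg, ← mul_assoc, o1, neg_mul, neg_neg, mul_assoc]
    have h3 := three_zero (s * (t * s'))
    simp only [add_mul, mul_add, m1, m2, m3, m4]
    simp only [mul_assoc]
    have key : ∀ (u v c : P), c + c + c = 0 →
      u + (-c + -c) + (v + v) = u + v + (v + (0 + c)) := by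
      intro u v c hc
      have : u + (-c + -c) + (v + v) = u + v + (v + (0 + c)) - (c + c + c) := by abel
      rw [this, hc, sub_zero]
    exact key _ _ _ h3
  rw [E1, E2]

/-! ### the augmentation ideal -/

/-- augmentation -/
def eps : P →ₐ[K] K :=
  CliffordAlgebra.lift (0 : QuadraticForm K V) ⟨0, by intro m; simp⟩

theorem eps_io (m : V) : eps (io m) = 0 := by
  simp [eps, CliffordAlgebra.lift_ι_apply]

theorem eps_sg (x : P) : eps (sg x) = eps x := by
  induction x using CliffordAlgebra.induction with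
  | algebraMap r => rw [AlgHom.commutes]
  | ι m => rw [sg_io, map_neg, eps_io, neg_zero]
  | mul a b ha hb => rw [map_mul, map_mul, map_mul, ha, hb]
  | add a b ha hb => rw [map_add, map_add, map_add, ha, hb]

theorem eps_p1 (x : P) : eps (p1 x) = 0 := by
  rw [p1_apply, map_sub, eps_sg, sub_self]

theorem eps_od {x : P} (hx : Od x) : eps x = 0 := by
  rw [← hx.p1, eps_p1]

theorem eps_op {x y : P} (hx : eps x = 0) : eps (op x y) = 0 := by
  have h0 : eps (p0 x) = 0 := by
    rw [p0_apply, map_neg, map_add, eps_sg, hx]; simp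
  unfold op
  rw [map_add, map_add, map_add, map_mul, map_mul, map_mul, map_mul, h0, eps_p1, eps_p1]
  simp

/-- The algebra. -/
def A : Type := {x : P // eps x = 0}

/-- the submodule underlying `A` -/
def Asub : Submodule K P := LinearMap.ker eps.toLinearMap

instance : AddCommGroup A := inferInstanceAs (AddCommGroup Asub)
instance : Module K A := inferInstanceAs (Module K Asub)

/-- inclusion of `A` in `P` -/
def inc : A →ₗ[K] P := Asub.subtype

theorem inc_inj : Function.Injective inc := Subtype.val_injective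

theorem eps_inc (x : A) : eps (inc x) = 0 := x.2

/-- constructor -/
def mkA (x : P) (hx : eps x = 0) : A := ⟨x, hx⟩

theorem inc_mkA (x : P) (hx : eps x = 0) : inc (mkA x hx) = x := rfl

instance : Mul A := ⟨fun x y => mkA (op (inc x) (inc y)) (eps_op (eps_inc x))⟩

theorem inc_mul (x y : A) : inc (x * y) = op (inc x) (inc y) := rfl

instance instA : NonUnitalNonAssocRing A :=
  { (inferInstance : AddCommGroup A), (inferInstance : Mul A) with
    left_distrib := by
      intro x y z; apply inc_inj
      rw [map_add, inc_mul, inc_mul, inc_mul, map_add, op_add_right]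
    right_distrib := by
      intro x y z; apply inc_inj
      rw [map_add, inc_mul, inc_mul, inc_mul, map_add, op_add_left]
    zero_mul := by
      intro x; apply inc_inj
      rw [inc_mul, map_zero, op_zero_left]
    mul_zero := by
      intro x; apply inc_inj
      rw [inc_mul, map_zero, op_zero_right] }

instance : IsScalarTower K A A := ⟨by
  intro r x y; apply inc_inj
  change inc ((r • x) * y) = inc (r • (x * y))
  rw [inc_mul, map_smul, map_smul, inc_mul, op_smul_left]⟩

instance : SMulCommClass K A A := ⟨by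
  intro r x y; apply inc_inj
  change inc (r • (x * y)) = inc (x * (r • y))
  rw [inc_mul, map_smul, map_smul, inc_mul, op_smul_right]⟩

theorem A_comm (x y : A) : x * y = y * x := by
  apply inc_inj; rw [inc_mul, inc_mul, op_comm]

theorem A_alt (x y : A) : (x * x) * y = x * (x * y) := by
  apply inc_inj; simp only [inc_mul, op_alt]

/-! ### generators -/

theorem xi_od (i : ℕ) : Od (xi i) := Od.io _

theorem D_xi (i : ℕ) : D (xi i) = xi (i + 1) := by
  rw [xi, D_io]
  have : T (Finsupp.single i 1) = Finsupp.single (i + 1) 1 := by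
    simp [T]
  rw [this]; rfl

theorem D_xixi (i : ℕ) : D (xi i * xi (i + 1)) = xi i * xi (i + 2) := by
  rw [D_mul, D_xi, D_xi, (xi_od (i + 1)).sq, add_zero]

/-! ### ideals -/

section ideals

variable (I : Submodule K A) (hI : ∀ a x : A, x ∈ I → a * x ∈ I ∧ x * a ∈ I)

/-- the image of the ideal in `P` -/
def IP : Submodule K P := I.map inc

include hI

theorem IP_op {u : P} (hu : u ∈ IP I) {a : P} (ha : eps a = 0) : op a u ∈ IP I := by
  obtain ⟨x, hx, rfl⟩ := hu
  exact ⟨mkA a ha * x, (hI _ _ hx).1, rfl⟩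

/-- an ideal containing a nonzero element contains a nonzero even element -/
theorem exists_even {u : P} (hu : u ∈ IP I) (hu0 : u ≠ 0) :
    ∃ v ∈ IP I, Ev v ∧ v ≠ 0 := by
  by_cases h1 : p1 u = 0
  · refine ⟨u, hu, ?_, hu0⟩
    have : u = p0 u := by
      nth_rewrite 1 [← p0_add_p1 u]
      rw [h1, add_zero]
    rw [this]; exact p0_ev u
  · obtain ⟨a, s, ha, hs, rfl⟩ : ∃ a s, Ev a ∧ Od s ∧ u = a + s :=
      ⟨_, _, p0_ev u, p1_od u, (p0_add_p1 u).symm⟩
    rw [p1_of ha hs] at h1
    obtain ⟨N, hN⟩ := exists_PM s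
    -- c = xi N * xi (N+1), x = xi (N+3)
    set c := xi N * xi (N + 1) with hc
    set x := xi (N + 3) with hx
    have hcE : Ev c := (xi_od _).mul (xi_od _)
    have hxO : Od x := xi_od _
    have hceps : eps c = 0 := by rw [hc, map_mul, eps_od (xi_od _), zero_mul]
    have hxeps : eps x = 0 := eps_od hxO
    have hcx : Od (c * x) := hcE.mul_od hxO
    have m1 : op (c * x) (a + s) ∈ IP I := IP_op I hI hu (eps_od hcx)
    have m2 : op c (op x (a + s)) ∈ IP I := IP_op I hI (IP_op I hI hu hxeps) hceps
    have m3 := Submodule.sub_mem _ m1 m2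
    have e1 : op (c * x) (a + s) = ((c * x) * D s + s * D (c * x)) + a * (c * x) := by
      have := op_eq (a := 0) (s := c * x) (b := a) (t := s) (by unfold Ev; exact map_zero _)
        hcx ha hs
      rw [zero_add, zero_mul, zero_mul, zero_add, zero_add] at this
      exact this
    have e2 : op c (op x (a + s)) = c * ((x * D s + s * D x) + a * x) := by
      rw [op_ev_left hcE]
      have := op_eq (a := 0) (s := x) (b := a) (t := s) (by unfold Ev; exact map_zero _)
        hxO ha hs
      rw [zero_add, zero_mul, zero_mul, zero_add, zero_add] at this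
      rw [this]
    have e3 : op (c * x) (a + s) - op c (op x (a + s)) = s * (xi N * xi (N + 2) * xi (N + 3)) := by
      rw [e1, e2, D_mul, ← D_xixi, ← hc]
      have f1 : s * (c * D x) = c * (s * D x) := by
        rw [← mul_assoc, ← hcE.comm, mul_assoc]
      have f2 : a * (c * x) = c * (a * x) := by
        rw [← mul_assoc, ha.comm c, mul_assoc]
      rw [mul_add s, f1, f2, mul_add c, mul_add c, mul_assoc c x]
      abel
    rw [e3] at m3
    refine ⟨_, m3, hs.mul ?_, ?_⟩
    · exact ((xi_od _).mul (xi_od _)).mul_od (xi_od _)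
    · rw [← mul_assoc, ← mul_assoc]
      have g1 := mul_xi_ne hN le_rfl h1
      have k1 : s * xi N ∈ PM (N + 1) :=
        Subalgebra.mul_mem _ (PM_mono (by omega) hN) (xi_mem (by omega))
      have g2 := mul_xi_ne (N := N + 2) k1 (by omega) g1
      have k2 : s * xi N * xi (N + 2) ∈ PM (N + 3) :=
        Subalgebra.mul_mem _ (PM_mono (by omega) k1) (xi_mem (by omega))
      exact mul_xi_ne (N := N + 3) k2 (by omega) g2

/-- from `u` even in the ideal get `x y D(u)` in the ideal -/
theorem IP_D {u : P} (hu : u ∈ IP I) (hE : Ev u) {x y : P} (hx : Od x) (hy : Od y) :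
    x * y * D u ∈ IP I := by
  have hxe := eps_od hx
  have hye := eps_od hy
  have m1 : op (op x y) u ∈ IP I := IP_op I hI hu (eps_op hxe)
  have m2 : op x (op y u) ∈ IP I := IP_op I hI (IP_op I hI hu hye) hxe
  have hxy : op x y = x * D y + y * D x := by
    have := op_eq (a := 0) (s := x) (b := 0) (t := y) (by unfold Ev; exact map_zero _)
        hx (by unfold Ev; exact map_zero _) hy
    simpa using this
  have hyu : op y u = u * y := by
    rw [op_comm, op_ev_left hE]
  have hO : Od (u * y) := hE.mul_od hy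
  have hxyu : op x (u * y) = x * D (u * y) + (u * y) * D x := by
    have := op_eq (a := 0) (s := x) (b := 0) (t := u * y) (by unfold Ev; exact map_zero _)
        hx (by unfold Ev; exact map_zero _) hO
    simpa using this
  have hxyE : Ev (x * D y + y * D x) := (hx.mul hy.d).add (hy.mul hx.d)
  rw [hxy, op_ev_left hxyE] at m1
  rw [hyu, hxyu, D_mul] at m2
  have m3 := Submodule.sub_mem _ m1 m2
  have e : (x * D y + y * D x) * u - (x * (u * D y + D u * y) + u * y * D x)
      = - (x * y * D u) := by
    have f1 : x * D y * u = x * (u * D y) := by rw [mul_assoc, ← hE.comm]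
    have f2 : y * D x * u = u * y * D x := by rw [← hE.comm, mul_assoc]
    have f3 : x * (D u * y) = x * y * D u := by rw [hE.d.comm, mul_assoc]
    rw [add_mul, f1, f2, mul_add, f3]
    abel
  rw [e] at m3
  have := Submodule.neg_mem _ m3
  rwa [neg_neg] at this

end ideals

/-- the odd part as a submodule -/
def OddS : Submodule K P where
  carrier := {x | Od x}
  add_mem' := fun ha hb => ha.add hb
  zero_mem' := by change sg 0 = - 0; rw [map_zero, neg_zero]
  smul_mem' := by
    intro r x hx
    change sg (r • x) = - (r • x)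
    rw [map_smul, hx, smul_neg]

/-- products of pairs of odd elements -/
def W (k : ℕ) : Submodule K P := (OddS * OddS) ^ k

theorem W_ev (k : ℕ) : ∀ w ∈ W k, Ev w := by
  induction k with
  | zero =>
    intro w hw
    unfold W at hw
    rw [pow_zero, Submodule.mem_one] at hw
    obtain ⟨r, rfl⟩ := hw
    exact AlgHom.commutes _ _
  | succ k ih =>
    intro w hw
    unfold W at hw
    rw [pow_succ] at hw
    induction hw using Submodule.mul_induction_on' with
    | mem_mul_mem m hm n hn =>
      refine (ih m hm).mul ?_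
      induction hn using Submodule.mul_induction_on' with
      | mem_mul_mem p hp q hq => exact Od.mul hp hq
      | add a _ b _ ha hb => exact ha.add hb
    | add a _ b _ ha hb => exact ha.add hb

theorem W_D (k : ℕ) : ∀ w ∈ W k, D w ∈ W k := by
  induction k with
  | zero =>
    intro w hw
    unfold W at hw
    rw [pow_zero, Submodule.mem_one] at hw
    obtain ⟨r, rfl⟩ := hw
    rw [D_alg]; exact Submodule.zero_mem _
  | succ k ih =>
    intro w hw
    unfold W at hw ⊢
    rw [pow_succ] at hw ⊢
    induction hw using Submodule.mul_induction_on' with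
    | mem_mul_mem m hm n hn =>
      rw [D_mul]
      refine Submodule.add_mem _ (Submodule.mul_mem_mul hm ?_) (Submodule.mul_mem_mul (ih m hm) hn)
      induction hn using Submodule.mul_induction_on' with
      | mem_mul_mem p hp q hq =>
        rw [D_mul]
        exact Submodule.add_mem _ (Submodule.mul_mem_mul hp (Od.d hq))
          (Submodule.mul_mem_mul (Od.d hp) hq)
      | add a _ b _ ha hb => rw [map_add]; exact Submodule.add_mem _ ha hb
    | add a _ b _ ha hb => rw [map_add]; exact Submodule.add_mem _ ha hb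

theorem IP_Dk (I : Submodule K A) (hI : ∀ a x : A, x ∈ I → a * x ∈ I ∧ x * a ∈ I)
    {u : P} (hu : u ∈ IP I) (hE : Ev u) (k : ℕ) : ∀ w ∈ W k, Dk k u * w ∈ IP I := by
  induction k with
  | zero =>
    intro w hw
    unfold W at hw
    rw [pow_zero, Submodule.mem_one] at hw
    obtain ⟨r, rfl⟩ := hw
    rw [← Algebra.commutes, ← Algebra.smul_def]
    exact Submodule.smul_mem _ _ hu
  | succ k ih =>
    intro w hw
    unfold W at hw
    rw [pow_succ] at hw
    induction hw using Submodule.mul_induction_on' with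
    | mem_mul_mem m hm n hn =>
      induction hn using Submodule.mul_induction_on' with
      | mem_mul_mem x hx y hy =>
        have hmE : Ev m := W_ev k m hm
        have hDE : Ev (Dk k u) := Dk_ev hE k
        have m1 := IP_D I hI (ih m hm) (hDE.mul hmE) hx hy
        have m2 := ih _ (W_D k m hm)
        have hxyE : Ev (x * y) := Od.mul hx hy
        have hxye : eps (x * y) = 0 := by rw [map_mul, eps_od hx, zero_mul]
        have m3 := IP_op I hI m2 hxye
        rw [op_ev_left hxyE] at m3
        have m4 := Submodule.sub_mem _ m1 m3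
        have e : x * y * D (Dk k u * m) - x * y * (Dk k u * D m) =
            Dk (k + 1) u * (m * (x * y)) := by
          rw [D_mul, mul_add, add_sub_cancel_left, Dk_succ, hxyE.comm, mul_assoc]
        rw [e] at m4
        exact m4
      | add a _ b _ ha hb => rw [mul_add, mul_add]; exact Submodule.add_mem _ ha hb
    | add a _ b _ ha hb => rw [mul_add]; exact Submodule.add_mem _ ha hb

/-- nonvanishing product with elements of `W k` -/
theorem exists_W (k : ℕ) : ∀ u : P, u ≠ 0 → ∃ w ∈ W k, u * w ≠ 0 := by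
  induction k with
  | zero =>
    intro u hu
    refine ⟨1, ?_, by rwa [mul_one]⟩
    unfold W
    rw [pow_zero]
    exact Submodule.mem_one.mpr ⟨1, map_one _⟩
  | succ k ih =>
    intro u hu
    obtain ⟨w, hw, hne⟩ := ih u hu
    obtain ⟨N, hN⟩ := exists_PM (u * w)
    have g1 := mul_xi_ne hN le_rfl hne
    have k1 : u * w * xi N ∈ PM (N + 1) :=
      Subalgebra.mul_mem _ (PM_mono (by omega) hN) (xi_mem (by omega))
    have g2 := mul_xi_ne (N := N + 1) k1 (by omega) g1
    refine ⟨w * (xi N * xi (N + 1)), ?_, ?_⟩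
    · unfold W
      rw [pow_succ]
      exact Submodule.mul_mem_mul hw (Submodule.mul_mem_mul (xi_od _) (xi_od _))
    · rw [← mul_assoc, ← mul_assoc]; exact g2

theorem A_prime (I J : Submodule K A)
    (hI : ∀ a x : A, x ∈ I → a * x ∈ I ∧ x * a ∈ I)
    (hJ : ∀ a x : A, x ∈ J → a * x ∈ J ∧ x * a ∈ J)
    (h : ∀ x ∈ I, ∀ y ∈ J, x * y = 0) : I = ⊥ ∨ J = ⊥ := by
  by_contra hcon
  push Not at hcon
  obtain ⟨h1, h2⟩ := hcon
  obtain ⟨x, hx, hx0⟩ := (Submodule.ne_bot_iff _).mp h1
  obtain ⟨y, hy, hy0⟩ := (Submodule.ne_bot_iff _).mp h2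
  have hx' : inc x ≠ 0 := fun hh => hx0 (inc_inj (by rw [hh, map_zero]))
  have hy' : inc y ≠ 0 := fun hh => hy0 (inc_inj (by rw [hh, map_zero]))
  obtain ⟨u, hu, huE, hu0⟩ := exists_even I hI (u := inc x) ⟨x, hx, rfl⟩ hx'
  obtain ⟨v, hv, hvE, hv0⟩ := exists_even J hJ (u := inc y) ⟨y, hy, rfl⟩ hy'
  obtain ⟨k, hk⟩ := D_prime' u v hu0 hv0
  obtain ⟨w, hw, hne⟩ := exists_W k _ hk
  have hvw := IP_Dk J hJ hv hvE k w hw
  apply hne
  obtain ⟨x', hx', rfl⟩ := hu
  obtain ⟨y', hy', hyy⟩ := hvw
  have h3 := h x' hx' y' hy'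
  have h4 : op (inc x') (inc y') = 0 := by rw [← inc_mul, h3, map_zero]
  rw [hyy, op_ev_left huE] at h4
  rw [mul_assoc, h4]

theorem A_nonassoc : ∃ x y z : A, (x * y) * z ≠ x * (y * z) := by
  have he : ∀ i, eps (xi i) = 0 := fun i => eps_od (xi_od i)
  refine ⟨mkA (xi 0) (he 0), mkA (xi 1) (he 1), mkA (xi 3) (he 3), ?_⟩
  intro hcon
  have h := congrArg inc hcon
  simp only [inc_mul, inc_mkA] at h
  have hop : ∀ i j, op (xi i) (xi j) = xi i * xi (j + 1) + xi j * xi (i + 1) := by
    intro i j
    have := op_eq (a := 0) (s := xi i) (b := 0) (t := xi j) (by unfold Ev; exact map_zero _)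
        (xi_od i) (by unfold Ev; exact map_zero _) (xi_od j)
    simpa [D_xi] using this
  have hE : ∀ i j, Ev (xi i * xi (j + 1) + xi j * xi (i + 1)) := fun i j =>
    ((xi_od _).mul (xi_od _)).add ((xi_od _).mul (xi_od _))
  rw [hop, hop, op_ev_left (hE _ _), op_comm (xi 0), op_ev_left (hE _ _)] at h
  -- (ξ0 ξ2 + ξ1 ξ1) ξ3 = (ξ1 ξ4 + ξ3 ξ2) ξ0
  rw [(xi_od 1).sq, add_zero] at h
  have c4 : cn (ev 4) (xi 0 * xi 2 * xi 3) = 0 := by
    refine cn_zero (M := 4) ?_ _ (fun i hi => ev_single_ne (by omega))
    exact Subalgebra.mul_mem _ (Subalgebra.mul_mem _ (xi_mem (by omega)) (xi_mem (by omega)))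
      (xi_mem (by omega))
  have h' := congrArg (cn (ev 4)) h
  rw [c4] at h'
  have hz : ∀ i, i < 4 → cn (ev 4) (xi i) = 0 := fun i hi =>
    cn_zero (M := 4) (xi_mem hi) _ (fun i hi => ev_single_ne (by omega))
  have h44 : cn (ev 4) (xi 4) = 1 := by
    have h3 := cn_io (ev 4) (Finsupp.single 4 1) 1
    rw [mul_one, ev_single, one_smul] at h3
    have h4 : cn (ev 4) (1 : P) = 0 := by simp
    rw [h4, mul_zero, sub_zero] at h3
    exact h3
  have h5 : cn (ev 4) ((xi 1 * xi 4 + xi 3 * xi 2) * xi 0) = - xi 1 * xi 0 := by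
    rw [cn_mul, map_add, cn_mul, cn_mul, hz 0 (by omega), hz 1 (by omega), hz 3 (by omega),
      hz 2 (by omega), h44]
    have : sg (xi 1) = - xi 1 := xi_od 1
    rw [this]
    simp
  have h5' : (1 : ℕ) + 3 = 4 := rfl
  simp only [show (3 + 1 : ℕ) = 4 from rfl, show (1 + 1 : ℕ) = 2 from rfl] at h'
  rw [h5] at h'
  have h6 : xi 0 * xi 1 ≠ 0 := by
    have k0 : xi 0 ∈ PM 1 := xi_mem (by omega)
    have : xi 0 ≠ 0 := by
      have := mul_xi_ne (M := 0) (N := 0) (u := 1) (Subalgebra.one_mem _) le_rfl one_ne_zero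
      rwa [one_mul] at this
    exact mul_xi_ne k0 le_rfl this
  apply h6
  rw [(xi_od 0).swap (xi_od 1), ← neg_mul]
  exact h'.symm

/-- the centre (and even the nucleus) of `A` is zero -/
theorem A_center (z : A) (hz : z ∈ Set.center A) : z = 0 := by
  have hL : ∀ b c : A, b * c * z = b * (c * z) := fun b c => by
    have := hz.right_assoc b c
    exact this
  have hL' : ∀ b c : P, eps b = 0 → eps c = 0 → op (op b c) (inc z) = op b (op c (inc z)) := by
    intro b c hb hc
    have := congrArg inc (hL (mkA b hb) (mkA c hc))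
    simpa only [inc_mul, inc_mkA] using this
  obtain ⟨a, s, ha, hs, hzz⟩ : ∃ a s, Ev a ∧ Od s ∧ inc z = a + s :=
    ⟨_, _, p0_ev _, p1_od _, (p0_add_p1 _).symm⟩
  rw [hzz] at hL'
  have hE0 : Ev (0 : P) := map_zero _
  -- the odd part vanishes
  have hs0 : s = 0 := by
    by_contra h1
    obtain ⟨N, hN⟩ := exists_PM s
    set c := xi N * xi (N + 1) with hc
    set x := xi (N + 3) with hx
    have hcE : Ev c := (xi_od _).mul (xi_od _)
    have hxO : Od x := xi_od _
    have hceps : eps c = 0 := by rw [hc, map_mul, eps_od (xi_od _), zero_mul]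
    have hxeps : eps x = 0 := eps_od hxO
    have hcx : Od (c * x) := hcE.mul_od hxO
    have h2 := hL' c x hceps hxeps
    rw [op_ev_left hcE, op_ev_left hcE] at h2
    have e1 := op_eq (a := 0) (s := c * x) (b := a) (t := s) hE0 hcx ha hs
    have e2 := op_eq (a := 0) (s := x) (b := a) (t := s) hE0 hxO ha hs
    rw [zero_add, zero_mul, zero_mul, zero_add, zero_add] at e1 e2
    rw [e1, e2, D_mul] at h2
    have f1 : s * (c * D x) = c * (s * D x) := by
      rw [← mul_assoc, ← hcE.comm, mul_assoc]
    have f2 : a * (c * x) = c * (a * x) := by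
      rw [← mul_assoc, ha.comm c, mul_assoc]
    rw [mul_add s, f1, f2, mul_add c, mul_add c, mul_assoc c x, hc, D_xixi, ← hc] at h2
    have h3 : s * (xi N * xi (N + 2) * x) = 0 := by
      have h4 := sub_eq_zero.mpr h2
      rw [← h4]; abel
    rw [← mul_assoc, ← mul_assoc] at h3
    have g1 := mul_xi_ne hN le_rfl h1
    have k1 : s * xi N ∈ PM (N + 1) :=
      Subalgebra.mul_mem _ (PM_mono (by omega) hN) (xi_mem (by omega))
    have g2 := mul_xi_ne (N := N + 2) k1 (by omega) g1
    have k2 : s * xi N * xi (N + 2) ∈ PM (N + 3) :=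
      Subalgebra.mul_mem _ (PM_mono (by omega) k1) (xi_mem (by omega))
    exact mul_xi_ne (N := N + 3) k2 (by omega) g2 h3
  subst hs0
  rw [add_zero] at hL' hzz
  -- D a = 0
  have hDa : D a = 0 := by
    by_contra h1
    obtain ⟨N, hN⟩ := exists_PM (D a)
    have hx := xi_od N
    have hy := xi_od (N + 1)
    have h2 := hL' (xi N) (xi (N + 1)) (eps_od hx) (eps_od hy)
    have e1 : op (xi N) (xi (N + 1)) = xi N * D (xi (N + 1)) + xi (N + 1) * D (xi N) := by
      have := op_eq (a := 0) (s := xi N) (b := 0) (t := xi (N + 1)) hE0 hx hE0 hy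
      simpa using this
    have e2 : op (xi (N + 1)) a = a * xi (N + 1) := by
      rw [op_comm, op_ev_left ha]
    have hO : Od (a * xi (N + 1)) := ha.mul_od hy
    have e3 : op (xi N) (a * xi (N + 1)) =
        xi N * D (a * xi (N + 1)) + (a * xi (N + 1)) * D (xi N) := by
      have := op_eq (a := 0) (s := xi N) (b := 0) (t := a * xi (N + 1)) hE0 hx hE0 hO
      simpa using this
    rw [e1, op_ev_left ((hx.mul hy.d).add (hy.mul hx.d)), e2, e3, D_mul] at h2
    have f1 : xi N * D (xi (N + 1)) * a = xi N * (a * D (xi (N + 1))) := by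
      rw [mul_assoc, ← ha.comm]
    have f2 : xi (N + 1) * D (xi N) * a = a * xi (N + 1) * D (xi N) := by
      rw [← ha.comm, mul_assoc]
    have f3 : xi N * (D a * xi (N + 1)) = D a * xi N * xi (N + 1) := by
      rw [← mul_assoc, ha.d.comm]
    rw [add_mul, f1, f2, mul_add, f3] at h2
    have h3 : D a * xi N * xi (N + 1) = 0 := by
      have h4 := sub_eq_zero.mpr h2
      have h5 : xi N * (a * D (xi (N + 1))) + a * xi (N + 1) * D (xi N) -
        (xi N * (a * D (xi (N + 1))) + D a * xi N * xi (N + 1) + a * xi (N + 1) * D (xi N))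
        = - (D a * xi N * xi (N + 1)) := by abel
      rw [h5] at h4
      exact neg_eq_zero.mp h4
    have g1 := mul_xi_ne hN le_rfl h1
    have k1 : D a * xi N ∈ PM (N + 1) :=
      Subalgebra.mul_mem _ (PM_mono (by omega) hN) (xi_mem (by omega))
    exact mul_xi_ne (N := N + 1) k1 le_rfl g1 h3
  obtain ⟨M, hM⟩ := exists_PM a
  have h0 := D_ker M a hM hDa
  have hb : PM 0 = ⊥ := by
    unfold PM
    have : {x : P | ∃ i < 0, x = xi i} = ∅ := by
      ext x; simp
    rw [this, Algebra.adjoin_empty]
  rw [hb, Algebra.mem_bot] at h0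
  obtain ⟨r, rfl⟩ := h0
  have h1 := eps_inc z
  rw [hzz, AlgHom.commutes] at h1
  have h2 : r = 0 := h1
  apply inc_inj
  rw [hzz, h2, map_zero, map_zero]

end

end Pool.Agent.Lib.MP_b0301d_al
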