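import Mathlib

/-!
The Grassmann algebra `P` over `ZMod 3` on generators `ξ i` (`i : ℕ`), its parity automorphism
`sg`, the even derivation `D` with `D (ξ i) = ξ (i + 1)` and the contractions `cn f`.
-/

set_option autoImplicit false

namespace Pool.Agent.Lib.MP_b0301d_al

noncomputable section

abbrev K := ZMod 3
abbrev V := ℕ →₀ K
abbrev P := CliffordAlgebra (0 : QuadraticForm K V)

/-- The shift on `V`. -/
def T : V →ₗ[K] V := Finsupp.lmapDomain K K Nat.succ

/-- inclusion of vectors -/
abbrev io : V →ₗ[K] P := CliffordAlgebra.ι (0 : QuadraticForm K V)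

/-- the generators -/
def xi (i : ℕ) : P := io (Finsupp.single i 1)

theorem io_sq (m : V) : io m * io m = 0 := by
  simp

theorem io_swap (a b : V) : io a * io b = - (io b * io a) := by
  have h := CliffordAlgebra.ι_mul_ι_add_swap (Q := (0 : QuadraticForm K V)) a b
  have h2 : QuadraticMap.polar (⇑(0 : QuadraticForm K V)) a b = 0 := by
    simp [QuadraticMap.polar]
  rw [h2, map_zero] at h
  exact eq_neg_of_add_eq_zero_left h

/-- parity automorphism -/
abbrev sg : P →ₐ[K] P := CliffordAlgebra.involute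

theorem sg_sg (x : P) : sg (sg x) = x := CliffordAlgebra.involute_involute x

theorem sg_io (m : V) : sg (io m) = - io m := CliffordAlgebra.involute_ι m

/-! ### the derivation -/

def DAux : P →ₐ[K] DualNumber P :=
  CliffordAlgebra.lift (0 : QuadraticForm K V)
    ⟨(TrivSqZeroExt.inlAlgHom K P P).toLinearMap ∘ₗ io +
      (TrivSqZeroExt.inrHom P P).restrictScalars K ∘ₗ io ∘ₗ T, by
      intro m
      simp only [LinearMap.add_apply, LinearMap.comp_apply, AlgHom.toLinearMap_apply,
        TrivSqZeroExt.inlAlgHom_apply, LinearMap.coe_restrictScalars, TrivSqZeroExt.inrHom_apply]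
      ext
      · simp
      · simp [io_swap m (T m)]⟩

theorem DAux_io (m : V) :
    DAux (io m) = TrivSqZeroExt.inl (io m) + TrivSqZeroExt.inr (io (T m)) := by
  simp [DAux, CliffordAlgebra.lift_ι_apply]

theorem DAux_fst (x : P) : (DAux x).fst = x := by
  induction x using CliffordAlgebra.induction with
  | algebraMap r => simp [TrivSqZeroExt.algebraMap_eq_inl']
  | ι m => rw [DAux_io]; simp
  | mul a b ha hb => rw [map_mul, TrivSqZeroExt.fst_mul, ha, hb]
  | add a b ha hb => rw [map_add, TrivSqZeroExt.fst_add, ha, hb]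

def D : P →ₗ[K] P :=
  (TrivSqZeroExt.sndHom P P).restrictScalars K ∘ₗ DAux.toLinearMap

theorem D_def (x : P) : D x = (DAux x).snd := rfl

theorem D_io (m : V) : D (io m) = io (T m) := by
  rw [D_def, DAux_io]; simp

theorem D_mul (x y : P) : D (x * y) = x * D y + D x * y := by
  rw [D_def, D_def, D_def, map_mul, TrivSqZeroExt.snd_mul, DAux_fst, DAux_fst]
  simp

theorem D_alg (r : K) : D (algebraMap K P r) = 0 := by
  rw [D_def, AlgHom.commutes]; simp [TrivSqZeroExt.algebraMap_eq_inl']

theorem D_one : D 1 = 0 := by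
  have := D_alg 1
  simpa using this

theorem sg_D (x : P) : sg (D x) = D (sg x) := by
  induction x using CliffordAlgebra.induction with
  | algebraMap r => rw [D_alg, map_zero, AlgHom.commutes, D_alg]
  | ι m => rw [D_io, sg_io, sg_io, map_neg, D_io]
  | mul a b ha hb => rw [D_mul, map_add, map_mul, map_mul, map_mul, D_mul, ha, hb]
  | add a b ha hb => rw [map_add, map_add, map_add, map_add, ha, hb]

/-! ### supercommutativity -/

/-- `x` is even -/
def Ev (x : P) : Prop := sg x = x

/-- `x` is odd -/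
def Od (x : P) : Prop := sg x = - x

theorem io_mul (m : V) (x : P) : io m * x = sg x * io m := by
  induction x using CliffordAlgebra.induction with
  | algebraMap r => rw [AlgHom.commutes, Algebra.commutes]
  | ι n => rw [sg_io, neg_mul]; exact io_swap m n
  | mul a b ha hb => rw [← mul_assoc, ha, mul_assoc, hb, map_mul, mul_assoc]
  | add a b ha hb => rw [mul_add, ha, hb, map_add, add_mul]

theorem Od.comm {x : P} (hx : Od x) (y : P) : x * y = sg y * x := by
  induction y using CliffordAlgebra.induction with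
  | algebraMap r => rw [AlgHom.commutes, Algebra.commutes]
  | ι n =>
    have h := io_mul n x
    unfold Od at hx
    rw [hx] at h
    rw [sg_io, neg_mul, h, neg_mul, neg_neg]
  | mul a b ha hb => rw [← mul_assoc, ha, mul_assoc, hb, map_mul, mul_assoc]
  | add a b ha hb => rw [mul_add, ha, hb, map_add, add_mul]

theorem Ev.comm {x : P} (hx : Ev x) (y : P) : x * y = y * x := by
  induction y using CliffordAlgebra.induction with
  | algebraMap r => rw [Algebra.commutes]
  | ι n =>
    have h := io_mul n x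
    unfold Ev at hx
    rw [hx] at h
    exact h.symm
  | mul a b ha hb => rw [← mul_assoc, ha, mul_assoc, hb, mul_assoc]
  | add a b ha hb => rw [mul_add, ha, hb, add_mul]

theorem Od.swap {x y : P} (hx : Od x) (hy : Od y) : x * y = - (y * x) := by
  rw [hx.comm y, hy, neg_mul]

theorem three_zero (x : P) : x + x + x = 0 := by
  have h : (3 : K) • x = 0 := by
    have : (3 : K) = 0 := by decide
    rw [this, zero_smul]
  have h2 : (3 : K) • x = x + x + x := by
    have : (3 : K) = 1 + 1 + 1 := by decide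
    rw [this, add_smul, add_smul, one_smul]
  rw [← h2, h]

theorem Od.sq {x : P} (hx : Od x) : x * x = 0 := by
  have h := hx.swap hx
  have h2 : x * x + x * x = 0 := by
    nth_rewrite 1 [h]; rw [neg_add_cancel]
  have h3 := three_zero (x * x)
  rw [h2, zero_add] at h3
  exact h3

theorem Ev.mul {x y : P} (hx : Ev x) (hy : Ev y) : Ev (x * y) := by
  unfold Ev at *; rw [map_mul, hx, hy]
theorem Ev.mul_od {x y : P} (hx : Ev x) (hy : Od y) : Od (x * y) := by
  unfold Ev Od at *; rw [map_mul, hx, hy, mul_neg]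
theorem Od.mul_ev {x y : P} (hx : Od x) (hy : Ev y) : Od (x * y) := by
  unfold Ev Od at *; rw [map_mul, hx, hy, neg_mul]
theorem Od.mul {x y : P} (hx : Od x) (hy : Od y) : Ev (x * y) := by
  unfold Ev Od at *; rw [map_mul, hx, hy, neg_mul_neg]
theorem Ev.add {x y : P} (hx : Ev x) (hy : Ev y) : Ev (x + y) := by
  unfold Ev at *; rw [map_add, hx, hy]
theorem Od.add {x y : P} (hx : Od x) (hy : Od y) : Od (x + y) := by
  unfold Od at *; rw [map_add, hx, hy, neg_add]
theorem Ev.d {x : P} (hx : Ev x) : Ev (D x) := by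
  unfold Ev at *; rw [sg_D, hx]
theorem Od.d {x : P} (hx : Od x) : Od (D x) := by
  unfold Od at *; rw [sg_D, hx, map_neg]
theorem Od.io (m : V) : Od (io m) := sg_io m

/-- even part -/
def p0 : P →ₗ[K] P := - (LinearMap.id + sg.toLinearMap)
/-- odd part -/
def p1 : P →ₗ[K] P := sg.toLinearMap - LinearMap.id

theorem p0_apply (x : P) : p0 x = - (x + sg x) := rfl
theorem p1_apply (x : P) : p1 x = sg x - x := rfl

theorem p0_add_p1 (x : P) : p0 x + p1 x = x := by
  rw [p0_apply, p1_apply]
  have h := three_zero x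
  have : -(x + sg x) + (sg x - x) = x - (x + x + x) := by abel
  rw [this, h, sub_zero]

theorem p0_ev (x : P) : Ev (p0 x) := by
  unfold Ev; rw [p0_apply, map_neg, map_add, sg_sg, add_comm]
theorem p1_od (x : P) : Od (p1 x) := by
  unfold Od; rw [p1_apply, map_sub, sg_sg, neg_sub]

theorem Ev.p0 {x : P} (hx : Ev x) : p0 x = x := by
  rw [p0_apply, hx]
  have h := three_zero x
  have : -(x + x) = x - (x + x + x) := by abel
  rw [this, h, sub_zero]
theorem Ev.p1 {x : P} (hx : Ev x) : p1 x = 0 := by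
  rw [p1_apply, hx, sub_self]
theorem Od.p1 {x : P} (hx : Od x) : p1 x = x := by
  rw [p1_apply, hx]
  have h := three_zero x
  have : -x - x = x - (x + x + x) := by abel
  rw [this, h, sub_zero]
theorem Od.p0 {x : P} (hx : Od x) : p0 x = 0 := by
  rw [p0_apply, hx, add_neg_cancel, neg_zero]

/-! ### contractions -/

/-- contraction with a functional -/
abbrev cn (f : Module.Dual K V) : P →ₗ[K] P := CliffordAlgebra.contractLeft f

theorem cn_io (f : Module.Dual K V) (m : V) (y : P) :
    cn f (io m * y) = f m • y - io m * cn f y :=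
  CliffordAlgebra.contractLeft_ι_mul f m y

theorem cn_alg (f : Module.Dual K V) (r : K) : cn f (algebraMap K P r) = 0 :=
  CliffordAlgebra.contractLeft_algebraMap _ f r

theorem cn_mul (f : Module.Dual K V) (x y : P) :
    cn f (x * y) = cn f x * y + sg x * cn f y := by
  induction x using CliffordAlgebra.left_induction with
  | algebraMap r =>
    rw [cn_alg, AlgHom.commutes, zero_mul, zero_add, ← Algebra.smul_def, map_smul,
      Algebra.smul_def]
  | add a b ha hb => rw [add_mul, map_add, ha, hb, map_add, map_add]; noncomm_ring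
  | ι_mul a m ha =>
    rw [mul_assoc, cn_io, ha, cn_io, map_mul, sg_io]
    simp only [sub_mul, smul_mul_assoc]
    noncomm_ring

theorem cn_D (f : Module.Dual K V) (x : P) : cn f (D x) = D (cn f x) + cn (f ∘ₗ T) x := by
  induction x using CliffordAlgebra.left_induction with
  | algebraMap r => rw [D_alg, cn_alg, cn_alg, map_zero, map_zero, add_zero]
  | add a b ha hb => rw [map_add, map_add, ha, hb, map_add, map_add, map_add]; abel
  | ι_mul a m ha =>
    rw [D_mul, D_io, map_add, cn_io, cn_io, cn_io, cn_io, ha, map_sub, D_mul, D_io, map_smul,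
      LinearMap.comp_apply]
    noncomm_ring

/-- iterates of `D` -/
def Dk (k : ℕ) : P →ₗ[K] P := D ^ k

theorem Dk_zero (x : P) : Dk 0 x = x := rfl
theorem Dk_succ (k : ℕ) (x : P) : Dk (k + 1) x = D (Dk k x) := by
  unfold Dk; rw [pow_succ']; rfl
theorem Dk_succ' (k : ℕ) (x : P) : Dk (k + 1) x = Dk k (D x) := by
  unfold Dk; rw [pow_succ]; rfl
theorem Dk_add (k l : ℕ) (x : P) : Dk (k + l) x = Dk k (Dk l x) := by
  unfold Dk; rw [pow_add]; rfl

theorem Dk_ev {x : P} (hx : Ev x) (k : ℕ) : Ev (Dk k x) := by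
  induction k with
  | zero => exact hx
  | succ k ih => rw [Dk_succ]; exact ih.d

/-- iterated shift -/
def Tk (k : ℕ) : V →ₗ[K] V := Finsupp.lmapDomain K K (fun i => i + k)

theorem Tk_add (k l : ℕ) : Tk k ∘ₗ Tk l = Tk (k + l) := by
  ext i j
  simp only [Tk, LinearMap.comp_apply, Finsupp.lsingle_apply, Finsupp.lmapDomain_apply,
    Finsupp.mapDomain_single]
  rw [show i + l + k = i + (k + l) by ring]

theorem Tk_one : Tk 1 = T := rfl

/-- left inverse of the iterated shift -/
def Uk (k : ℕ) : V →ₗ[K] V := Finsupp.lcomapDomain (fun i => i + k) (add_left_injective k)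

theorem Uk_Tk (k : ℕ) : Uk k ∘ₗ Tk k = LinearMap.id := by
  ext i j
  simp only [Tk, Uk, LinearMap.comp_apply, Finsupp.lsingle_apply, Finsupp.lmapDomain_apply,
    Finsupp.mapDomain_single, Finsupp.lcomapDomain_apply, Finsupp.comapDomain_apply,
    LinearMap.id_apply, Finsupp.single_apply, add_left_inj]

theorem Uk_single (k i : ℕ) (h : i < k) : Uk k (Finsupp.single i 1) = 0 := by
  ext j
  simp only [Uk, Finsupp.lcomapDomain_apply, Finsupp.comapDomain_apply, Finsupp.coe_zero,
    Pi.zero_apply]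
  rw [Finsupp.single_apply, if_neg (by omega)]

theorem cn_Dpow (s : ℕ) : ∀ (f : Module.Dual K V) (x : P),
    cn f (Dk (3 ^ s) x) = Dk (3 ^ s) (cn f x) + cn (f ∘ₗ Tk (3 ^ s)) x := by
  induction s with
  | zero =>
    intro f x
    have h : ∀ y, Dk (3 ^ 0) y = D y := fun y => by unfold Dk; rw [pow_zero, pow_one]
    rw [h, h, cn_D, pow_zero, Tk_one]
  | succ s ih =>
    intro f x
    have h : ∀ y, Dk (3 ^ (s + 1)) y = Dk (3 ^ s) (Dk (3 ^ s) (Dk (3 ^ s) y)) := by
      intro y; rw [← Dk_add, ← Dk_add, pow_succ]; congr 2; ring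
    have hT : Tk (3 ^ (s + 1)) = Tk (3 ^ s) ∘ₗ Tk (3 ^ s) ∘ₗ Tk (3 ^ s) := by
      rw [Tk_add, Tk_add, pow_succ]; congr 1; ring
    rw [h, h, hT]
    generalize hE : Dk (3 ^ s) = E at *
    generalize hS : Tk (3 ^ s) = S at *
    simp only [ih, map_add]
    have e1 := three_zero (E (E (cn (f ∘ₗ S) x)))
    have e2 := three_zero (E (cn ((f ∘ₗ S) ∘ₗ S) x))
    have e3 : f ∘ₗ S ∘ₗ S ∘ₗ S = ((f ∘ₗ S) ∘ₗ S) ∘ₗ S := rfl
    rw [e3]
    set A := E (E (cn (f ∘ₗ S) x))
    set B := E (cn ((f ∘ₗ S) ∘ₗ S) x)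
    set C := E (E (E (cn f x)))
    set F := cn (((f ∘ₗ S) ∘ₗ S) ∘ₗ S) x
    have : C + A + (A + B) + (A + B + (B + F)) = C + F + (A + A + A) + (B + B + B) := by abel
    rw [this, e1, e2, add_zero, add_zero]

/-! ### the subalgebras on finitely many generators -/

def PM (M : ℕ) : Subalgebra K P := Algebra.adjoin K {x | ∃ i < M, x = xi i}

theorem xi_mem {i M : ℕ} (h : i < M) : xi i ∈ PM M :=
  Algebra.subset_adjoin ⟨i, h, rfl⟩

theorem PM_mono {M N : ℕ} (h : M ≤ N) : PM M ≤ PM N := by
  apply Algebra.adjoin_mono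
  rintro x ⟨i, hi, rfl⟩
  exact ⟨i, lt_of_lt_of_le hi h, rfl⟩

theorem exists_PM (x : P) : ∃ M, x ∈ PM M := by
  induction x using CliffordAlgebra.induction with
  | algebraMap r => exact ⟨0, Subalgebra.algebraMap_mem _ r⟩
  | ι m =>
    induction m using Finsupp.induction_linear with
    | zero => exact ⟨0, by rw [map_zero]; exact Subalgebra.zero_mem _⟩
    | add a b ha hb =>
      obtain ⟨M, hM⟩ := ha
      obtain ⟨N, hN⟩ := hb
      exact ⟨max M N, by
        rw [map_add]
        exact Subalgebra.add_mem _ (PM_mono (le_max_left _ _) hM)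
          (PM_mono (le_max_right _ _) hN)⟩
    | single i r =>
      refine ⟨i + 1, ?_⟩
      have : (Finsupp.single i r : V) = r • Finsupp.single i 1 := by simp
      rw [this, map_smul]
      exact Subalgebra.smul_mem _ (xi_mem (Nat.lt_succ_self i)) r
  | mul a b ha hb =>
    obtain ⟨M, hM⟩ := ha
    obtain ⟨N, hN⟩ := hb
    exact ⟨max M N, Subalgebra.mul_mem _ (PM_mono (le_max_left _ _) hM)
          (PM_mono (le_max_right _ _) hN)⟩
  | add a b ha hb =>
    obtain ⟨M, hM⟩ := ha
    obtain ⟨N, hN⟩ := hb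
    exact ⟨max M N, Subalgebra.add_mem _ (PM_mono (le_max_left _ _) hM)
          (PM_mono (le_max_right _ _) hN)⟩

theorem sg_mem {M : ℕ} {x : P} (hx : x ∈ PM M) : sg x ∈ PM M := by
  induction hx using Algebra.adjoin_induction with
  | mem x hx =>
    obtain ⟨i, hi, rfl⟩ := hx
    rw [xi, sg_io]
    exact Subalgebra.neg_mem _ (xi_mem hi)
  | algebraMap r => rw [AlgHom.commutes]; exact Subalgebra.algebraMap_mem _ r
  | add x y _ _ hx hy => rw [map_add]; exact Subalgebra.add_mem _ hx hy
  | mul x y _ _ hx hy => rw [map_mul]; exact Subalgebra.mul_mem _ hx hy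

theorem D_mem {M : ℕ} {x : P} (hx : x ∈ PM M) : D x ∈ PM (M + 1) := by
  induction hx using Algebra.adjoin_induction with
  | mem x hx =>
    obtain ⟨i, hi, rfl⟩ := hx
    rw [xi, D_io]
    have : T (Finsupp.single i 1) = Finsupp.single (i + 1) 1 := by
      simp [T]
    rw [this]
    exact xi_mem (by omega)
  | algebraMap r => rw [D_alg]; exact Subalgebra.zero_mem _
  | add x y _ _ hx hy => rw [map_add]; exact Subalgebra.add_mem _ hx hy
  | mul x y hx' hy' hx hy =>
    rw [D_mul]
    have hx'' := PM_mono (Nat.le_succ M) hx'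
    have hy'' := PM_mono (Nat.le_succ M) hy'
    exact Subalgebra.add_mem _ (Subalgebra.mul_mem _ hx'' hy) (Subalgebra.mul_mem _ hx hy'')

theorem Dk_mem {M : ℕ} {x : P} (hx : x ∈ PM M) (k : ℕ) : Dk k x ∈ PM (M + k) := by
  induction k with
  | zero => exact hx
  | succ k ih => rw [Dk_succ]; exact D_mem ih

theorem cn_zero {M : ℕ} {x : P} (hx : x ∈ PM M) (f : Module.Dual K V)
    (hf : ∀ i < M, f (Finsupp.single i 1) = 0) : cn f x = 0 := by
  induction hx using Algebra.adjoin_induction with
  | mem x hx =>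
    obtain ⟨i, hi, rfl⟩ := hx
    have h := cn_io f (Finsupp.single i 1) 1
    rw [mul_one, hf i hi, zero_smul, zero_sub] at h
    have h2 : cn f (1 : P) = 0 := by
      simp
    rw [h2, mul_zero, neg_zero] at h
    exact h
  | algebraMap r => exact cn_alg f r
  | add x y _ _ hx hy => rw [map_add, hx, hy, add_zero]
  | mul x y _ _ hx hy => rw [cn_mul, hx, hy, zero_mul, mul_zero, add_zero]

theorem decomp {M : ℕ} {x : P} (hx : x ∈ PM (M + 1)) :
    ∃ a ∈ PM M, ∃ b ∈ PM M, x = a + xi M * b := by
  induction hx using Algebra.adjoin_induction with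
  | mem x hx =>
    obtain ⟨i, hi, rfl⟩ := hx
    rcases Nat.lt_succ_iff_lt_or_eq.mp hi with h | h
    · exact ⟨xi i, xi_mem h, 0, Subalgebra.zero_mem _, by rw [mul_zero, add_zero]⟩
    · exact ⟨0, Subalgebra.zero_mem _, 1, Subalgebra.one_mem _, by rw [mul_one, zero_add, h]⟩
  | algebraMap r =>
    exact ⟨_, Subalgebra.algebraMap_mem _ r, 0, Subalgebra.zero_mem _, by rw [mul_zero, add_zero]⟩
  | add x y _ _ hx hy =>
    obtain ⟨a, ha, b, hb, rfl⟩ := hx
    obtain ⟨c, hc, d, hd, rfl⟩ := hy
    exact ⟨a + c, Subalgebra.add_mem _ ha hc, b + d, Subalgebra.add_mem _ hb hd, by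
      rw [mul_add]; abel⟩
  | mul x y _ _ hx hy =>
    obtain ⟨a, ha, b, hb, rfl⟩ := hx
    obtain ⟨c, hc, d, hd, rfl⟩ := hy
    refine ⟨a * c, Subalgebra.mul_mem _ ha hc, sg a * d + b * c,
      Subalgebra.add_mem _ (Subalgebra.mul_mem _ (sg_mem ha) hd) (Subalgebra.mul_mem _ hb hc), ?_⟩
    have h1 : a * xi M = xi M * sg a := by
      have := io_mul (Finsupp.single M 1) (sg a)
      rw [sg_sg] at this
      exact this.symm
    have h2 : b * xi M = xi M * sg b := by
      have := io_mul (Finsupp.single M 1) (sg b)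
      rw [sg_sg] at this
      exact this.symm
    have h3 : xi M * xi M = 0 := io_sq _
    calc (a + xi M * b) * (c + xi M * d)
        = a * c + (a * xi M) * d + xi M * (b * c) + xi M * (b * xi M) * d := by noncomm_ring
      _ = a * c + (xi M * sg a) * d + xi M * (b * c) + (xi M * xi M) * sg b * d := by
          rw [h1, h2]; noncomm_ring
      _ = a * c + xi M * (sg a * d + b * c) := by rw [h3]; noncomm_ring

/-! ### the derivation is prime -/

theorem sg_ne {x : P} (hx : x ≠ 0) : sg x ≠ 0 := by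
  intro h
  apply hx
  rw [← sg_sg x, h, map_zero]

/-- the functional `e_i^*` -/
def ev (i : ℕ) : Module.Dual K V := Finsupp.lapply i

theorem ev_single (i : ℕ) : ev i (Finsupp.single i 1) = 1 := by
  simp [ev]
theorem ev_single_ne {i j : ℕ} (h : j ≠ i) : ev i (Finsupp.single j 1) = 0 := by
  simp [ev, h]

theorem key1 (u v : P) (h : ∀ k, u * Dk k v = 0) (f : Module.Dual K V) (k : ℕ) :
    sg u * cn f (Dk k v) = 0 := by
  obtain ⟨M, hM⟩ := exists_PM u
  obtain ⟨N, hN⟩ := exists_PM v
  obtain ⟨s, hs⟩ : ∃ s, M + N + k ≤ 3 ^ s := ⟨M + N + k, (Nat.lt_pow_self (by norm_num)).le⟩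
  set g : Module.Dual K V := f ∘ₗ Uk (3 ^ s) with hg
  have hgs : ∀ i < M + N + k, g (Finsupp.single i 1) = 0 := by
    intro i hi
    rw [hg, LinearMap.comp_apply, Uk_single _ _ (by omega), map_zero]
  have h1 : u * Dk (3 ^ s) (Dk k v) = 0 := by rw [← Dk_add]; exact h _
  have h2 := congrArg (cn g) h1
  rw [map_zero, cn_mul, cn_zero hM g (fun i hi => hgs i (by omega)), zero_mul, zero_add,
    cn_Dpow, cn_zero (Dk_mem hN k) g (fun i hi => hgs i (by omega)), map_zero, zero_add] at h2
  have h3 : g ∘ₗ Tk (3 ^ s) = f := by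
    rw [hg, LinearMap.comp_assoc, Uk_Tk, LinearMap.comp_id]
  rw [h3] at h2
  exact h2

theorem key2 (u v : P) (h : ∀ k, u * Dk k v = 0) :
    ∀ (k : ℕ) (f : Module.Dual K V) (l : ℕ), sg u * Dk k (cn f (Dk l v)) = 0 := by
  intro k
  induction k with
  | zero => intro f l; exact key1 u v h f l
  | succ k ih =>
    intro f l
    have h1 := ih f (l + 1)
    have h2 := ih (f ∘ₗ T) l
    rw [Dk_succ, cn_D, map_add, mul_add, h2, add_zero] at h1
    rw [Dk_succ']
    exact h1

theorem key3 (u v : P) (h : ∀ k, u * Dk k v = 0) (f : Module.Dual K V) (k : ℕ) :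
    sg u * Dk k (cn f v) = 0 := key2 u v h k f 0

theorem D_prime (M : ℕ) : ∀ (u v : P), v ∈ PM M → u ≠ 0 → v ≠ 0 → ∃ k, u * Dk k v ≠ 0 := by
  induction M with
  | zero =>
    intro u v hv hu hv0
    refine ⟨0, ?_⟩
    have h0 : PM 0 = ⊥ := by
      unfold PM
      have : {x : P | ∃ i < 0, x = xi i} = ∅ := by
        ext x; simp
      rw [this, Algebra.adjoin_empty]
    rw [h0, Algebra.mem_bot] at hv
    obtain ⟨r, rfl⟩ := hv
    rw [Dk_zero, ← Algebra.commutes, ← Algebra.smul_def]
    have hr : r ≠ 0 := by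
      rintro rfl
      exact hv0 (map_zero _)
    intro hh
    rcases smul_eq_zero.mp hh with h | h
    · exact hr h
    · exact hu h
  | succ M ih =>
    intro u v hv hu hv0
    obtain ⟨a, ha, b, hb, rfl⟩ := decomp hv
    by_cases hb0 : b = 0
    · subst hb0
      rw [mul_zero, add_zero] at hv0 ⊢
      exact ih u a ha hu hv0
    · by_contra hcon
      push Not at hcon
      obtain ⟨k, hk⟩ := ih (sg u) b hb (sg_ne hu) hb0
      apply hk
      have h1 := key3 u _ hcon (ev M) k
      have h2 : cn (ev M) (a + xi M * b) = b := by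
        rw [map_add, cn_zero ha _ (fun i hi => ev_single_ne (by omega)), zero_add, xi, cn_io,
          ev_single, one_smul, cn_zero hb _ (fun i hi => ev_single_ne (by omega)), mul_zero,
          sub_zero]
      rw [h2] at h1
      exact h1

theorem D_prime' (u v : P) (hu : u ≠ 0) (hv : v ≠ 0) : ∃ k, u * Dk k v ≠ 0 := by
  obtain ⟨M, hM⟩ := exists_PM v
  exact D_prime M u v hM hu hv

theorem mul_xi_ne {M N : ℕ} {u : P} (hu : u ∈ PM M) (h : M ≤ N) (hu0 : u ≠ 0) :
    u * xi N ≠ 0 := by
  intro hcon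
  have h1 := congrArg (cn (ev N)) hcon
  rw [map_zero, cn_mul, cn_zero hu _ (fun i hi => ev_single_ne (by omega)), zero_mul,
    zero_add] at h1
  have h2 : cn (ev N) (xi N) = 1 := by
    have h3 := cn_io (ev N) (Finsupp.single N 1) 1
    rw [mul_one, ev_single, one_smul] at h3
    have h4 : cn (ev N) (1 : P) = 0 := by simp
    rw [h4, mul_zero, sub_zero] at h3
    exact h3
  rw [h2, mul_one] at h1
  exact sg_ne hu0 h1

/-- if `D a = 0` then `a` is a scalar -/
theorem D_ker (M : ℕ) : ∀ a ∈ PM M, D a = 0 → a ∈ PM 0 := by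
  induction M with
  | zero => intro a ha _; exact ha
  | succ M ih =>
    intro v hv hD
    obtain ⟨a, ha, b, hb, rfl⟩ := decomp hv
    have h1 := congrArg (cn (ev (M + 1))) hD
    rw [map_zero, cn_D, cn_zero hv _ (fun i hi => ev_single_ne (by omega)), map_zero,
      zero_add] at h1
    have h2 : ev (M + 1) ∘ₗ T = ev M := by
      ext i
      simp only [ev, T, LinearMap.comp_apply, Finsupp.lsingle_apply, Finsupp.lmapDomain_apply,
        Finsupp.mapDomain_single, Finsupp.lapply_apply, Finsupp.single_apply]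
      simp
    rw [h2] at h1
    have h3 : cn (ev M) (a + xi M * b) = b := by
      rw [map_add, cn_zero ha _ (fun i hi => ev_single_ne (by omega)), zero_add, xi, cn_io,
        ev_single, one_smul, cn_zero hb _ (fun i hi => ev_single_ne (by omega)), mul_zero,
        sub_zero]
    rw [h3] at h1
    subst h1
    rw [mul_zero, add_zero] at hD ⊢
    exact ih a ha hD

end

end Pool.Agent.Lib.MP_b0301d_al
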